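import Mathlib
import Pool.Agent.Helper897.InnerUnique2

set_option autoImplicit false

open Complex ComplexConjugate Metric Filter Topology

namespace Pool.Agent.Results.MP_c109b8_an.UniqueNotBlaschke

noncomputable section

/-- `g` belongs to `H^∞`: analytic and bounded on the open unit disc. -/
def InHinf (g : ℂ → ℂ) : Prop :=
  DifferentiableOn ℂ g (ball 0 1) ∧ ∃ M : ℝ, ∀ w ∈ ball (0:ℂ) 1, ‖g w‖ ≤ M

/-- The supremum norm on the open unit disc. -/
def supNorm (g : ℂ → ℂ) : ℝ := ⨆ w : ball (0:ℂ) 1, ‖g w‖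

/-- A Blaschke sequence: distinct points of the open unit disc with `∑ (1 - |z_n|) < ∞`. -/
def IsBlaschkeSequence (z : ℕ → ℂ) : Prop :=
  Function.Injective z ∧ (∀ n, ‖z n‖ < 1) ∧ Summable (fun n => 1 - ‖z n‖)

/-- Blaschke products `e^{iθ} w^k ∏_j (|a_j|/a_j) (a_j - w)/(1 - conj(a_j) w)`, where `(a_j)` is a
finite or infinite family of nonzero points of the disc (repetitions allowed) with
`∑ (1 - |a_j|) < ∞`. -/
def IsBlaschkeProduct (B : ℂ → ℂ) : Prop :=
  ∃ (θ : ℝ) (k : ℕ) (ι : Type) (_ : Countable ι) (a : ι → ℂ),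
    (∀ j, a j ≠ 0 ∧ ‖a j‖ < 1) ∧ Summable (fun j => 1 - ‖a j‖) ∧
    ∀ w ∈ ball (0:ℂ) 1, ∃ P : ℂ,
      HasProd (fun j => ((‖a j‖ : ℂ) / a j) * ((a j - w) / (1 - conj (a j) * w))) P ∧
      B w = Complex.exp (θ * I) * w ^ k * P

/-- `g` is a minimal-norm interpolant of `f` on `z`. -/
def IsMinimalNormInterpolant (f : ℂ → ℂ) (z : ℕ → ℂ) (g : ℂ → ℂ) : Prop :=
  InHinf g ∧ (∀ n, g (z n) = f (z n)) ∧
  ∀ h : ℂ → ℂ, InHinf h → (∀ n, h (z n) = f (z n)) → supNorm g ≤ supNorm h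

/-- The minimal-norm interpolant `g` of `f` on `z` is unique (as a function on the disc). -/
def IsUniqueMinimalNormInterpolant (f : ℂ → ℂ) (z : ℕ → ℂ) (g : ℂ → ℂ) : Prop :=
  IsMinimalNormInterpolant f z g ∧
  ∀ h : ℂ → ℂ, IsMinimalNormInterpolant f z h → Set.EqOn h g (ball 0 1)

open Pool.Agent.Helper897.InnerUnique

instance : Nonempty (ball (0:ℂ) 1) := ⟨⟨0, by simp⟩⟩

lemma le_supNorm {g : ℂ → ℂ} (hg : InHinf g) {w : ℂ} (hw : w ∈ ball (0:ℂ) 1) :
    ‖g w‖ ≤ supNorm g := by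
  obtain ⟨-, M, hM⟩ := hg
  refine le_ciSup (f := fun w : ball (0:ℂ) 1 => ‖g w‖) ⟨M, ?_⟩ ⟨w, hw⟩
  rintro _ ⟨v, rfl⟩
  exact hM v v.2

lemma supNorm_S_le : supNorm S ≤ 1 := ciSup_le (fun w => S_norm_le_one w.2)

lemma S_inHinf : InHinf S := ⟨S_differentiableOn, 1, fun _ hw => S_norm_le_one hw⟩

lemma supNorm_congr {g h : ℂ → ℂ} (H : Set.EqOn g h (ball 0 1)) : supNorm g = supNorm h := by
  unfold supNorm
  congr 1
  funext w
  rw [H w.2]

/-- Uniqueness in the unit ball makes `S` the unique minimal-norm interpolant. -/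
lemma unique_minimal (z : ℕ → ℂ)
    (huniq : ∀ h : ℂ → ℂ, DifferentiableOn ℂ h (ball 0 1) → (∀ ζ ∈ ball (0:ℂ) 1, ‖h ζ‖ ≤ 1) →
      (∀ n, h (z n) = S (z n)) → Set.EqOn h S (ball 0 1)) :
    IsUniqueMinimalNormInterpolant S z S := by
  refine ⟨⟨S_inHinf, fun _ => rfl, ?_⟩, ?_⟩
  · intro h hh hint
    by_contra hcon
    push Not at hcon
    have h1 := huniq h hh.1 (fun ζ hζ => (le_supNorm hh hζ).trans (hcon.le.trans supNorm_S_le)) hint
    rw [supNorm_congr h1] at hcon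
    exact lt_irrefl _ hcon
  · intro h hh
    have h2 := hh.2.2 S S_inHinf (fun _ => rfl)
    exact huniq h hh.1.1 (fun ζ hζ => (le_supNorm hh.1 hζ).trans (h2.trans supNorm_S_le)) hh.2.1

lemma hasProd_zero_of {ι : Type} {f : ι → ℂ} {P : ℂ} (h : HasProd f P) {i : ι} (hi : f i = 0) :
    P = 0 := by
  classical
  have h1 : Tendsto (fun s : Finset ι => ∏ j ∈ s, f j) atTop (𝓝 0) := by
    apply tendsto_const_nhds.congr'
    filter_upwards [eventually_ge_atTop {i}] with s hs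
    symm
    exact Finset.prod_eq_zero (hs (Finset.mem_singleton_self i)) hi
  exact tendsto_nhds_unique h h1

/-- The singular inner function `S` is not a constant multiple of a Blaschke product. -/
lemma S_not_blaschke : ¬ ∃ (c : ℂ) (B : ℂ → ℂ), IsBlaschkeProduct B ∧
    ∀ w ∈ ball (0:ℂ) 1, S w = c * B w := by
  rintro ⟨c, B, ⟨θ, k, ι, _, a, ha, -, hB⟩, hSB⟩
  have hk : k = 0 := by
    by_contra hk
    obtain ⟨P, -, hP⟩ := hB 0 (by simp)
    have h1 := hSB 0 (by simp)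
    rw [hP, zero_pow hk] at h1
    simp only [mul_zero, zero_mul] at h1
    exact S_ne_zero 0 h1
  subst hk
  by_cases hι : Nonempty ι
  · obtain ⟨i⟩ := hι
    have hmem : a i ∈ ball (0:ℂ) 1 := by simpa using (ha i).2
    obtain ⟨P, hP1, hP2⟩ := hB (a i) hmem
    have hP0 : P = 0 := hasProd_zero_of hP1 (i := i) (by simp)
    have h1 := hSB (a i) hmem
    rw [hP2, hP0, mul_zero, mul_zero] at h1
    exact S_ne_zero _ h1
  · rw [not_nonempty_iff] at hι
    have hconst : ∀ w ∈ ball (0:ℂ) 1, S w = c * Complex.exp (θ * I) := by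
      intro w hw
      obtain ⟨P, hP1, hP2⟩ := hB w hw
      have hP : P = 1 := hP1.unique hasProd_empty
      rw [hSB w hw, hP2, hP]
      simp
    apply S_nonconst
    rw [hconst 0 (by simp), hconst (-1/2) (by simp; norm_num)]

/-- The sequence `z_n = -1 + 2^{-(n+1)}`. -/
def zseq (n : ℕ) : ℂ := ((-1 + (1/2:ℝ) ^ (n + 1) : ℝ) : ℂ)

lemma q_pos (n : ℕ) : 0 < (1/2:ℝ) ^ (n + 1) := by positivity

lemma q_le (n : ℕ) : (1/2:ℝ) ^ (n + 1) ≤ 1/2 := by
  rw [pow_succ]
  have : (1/2:ℝ) ^ n ≤ 1 := pow_le_one₀ (by norm_num) (by norm_num)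
  linarith

lemma norm_zseq (n : ℕ) : ‖zseq n‖ = 1 - (1/2:ℝ) ^ (n + 1) := by
  unfold zseq
  rw [Complex.norm_real, Real.norm_eq_abs, abs_of_nonpos]
  · ring
  · have := q_le n
    linarith

lemma zseq_mem (n : ℕ) : zseq n ∈ ball (0:ℂ) 1 := by
  rw [mem_ball_zero_iff, norm_zseq]
  have := q_pos n
  linarith

lemma zseq_tendsto : Tendsto zseq atTop (𝓝 (-1)) := by
  have h1 : Tendsto (fun n : ℕ => (1/2:ℝ) ^ (n + 1)) atTop (𝓝 0) :=
    (tendsto_pow_atTop_nhds_zero_of_lt_one (by norm_num) (by norm_num)).comp (tendsto_add_atTop_nat 1)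
  have h2 : Tendsto (fun n : ℕ => -1 + (1/2:ℝ) ^ (n + 1)) atTop (𝓝 (-1)) := by
    have := h1.const_add (-1)
    rwa [add_zero] at this
  have h3 := (Complex.continuous_ofReal.tendsto (-1)).comp h2
  have h4 : ((-1 : ℝ) : ℂ) = -1 := by push_cast; rfl
  rw [h4] at h3
  exact h3

lemma zseq_blaschke : IsBlaschkeSequence zseq := by
  refine ⟨?_, ?_, ?_⟩
  · intro m n hmn
    unfold zseq at hmn
    rw [Complex.ofReal_inj] at hmn
    have h1 : (1/2:ℝ) ^ (m + 1) = (1/2:ℝ) ^ (n + 1) := by linarith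
    have h2 := pow_right_injective₀ (by norm_num : (0:ℝ) < 1/2) (by norm_num) h1
    omega
  · intro n
    have := zseq_mem n
    simpa using this
  · have h1 : (fun n => 1 - ‖zseq n‖) = fun n : ℕ => (1/2:ℝ) ^ (n + 1) := by
      funext n
      rw [norm_zseq]
      ring
    rw [h1]
    exact (summable_nat_add_iff 1).2 summable_geometric_two

/-- **Disproof of Q1.** There are `f ∈ H^∞` and a Blaschke sequence for which the minimal-norm
interpolant is unique but is not a constant multiple of any Blaschke product. -/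
theorem result :
    ¬ ∀ (f : ℂ → ℂ) (z : ℕ → ℂ), InHinf f → IsBlaschkeSequence z →
      ∀ g : ℂ → ℂ, IsUniqueMinimalNormInterpolant f z g →
        ∃ (c : ℂ) (B : ℂ → ℂ), IsBlaschkeProduct B ∧ ∀ w ∈ ball (0:ℂ) 1, g w = c * B w := by
  intro H
  apply S_not_blaschke
  exact H S zseq S_inHinf zseq_blaschke S (unique_minimal zseq
    (fun h hh hb hS => unique_of_tendsto zseq zseq_mem zseq_tendsto hh hb hS))

end

end Pool.Agent.Results.MP_c109b8_an.UniqueNotBlaschke
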