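import Mathlib
import Pool.Agent.Helper897.InnerUnique2

set_option autoImplicit false

open Complex ComplexConjugate Metric Filter Topology

namespace Pool.Agent.Results.MP_c109b8_an.UniqueNotBlaschkeDecay

noncomputable section

/-- `g` belongs to `H^∞`: analytic and bounded on the open unit disc. -/
def InHinf (g : ℂ → ℂ) : Prop :=
  DifferentiableOn ℂ g (ball 0 1) ∧ ∃ M : ℝ, ∀ w ∈ ball (0:ℂ) 1, ‖g w‖ ≤ M

/-- The supremum norm on the open unit disc. -/
def supNorm (g : ℂ → ℂ) : ℝ := ⨆ w : ball (0:ℂ) 1, ‖g w‖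

/-- A Blaschke sequence: distinct points of the open unit disc with `∑ (1 - |z_n|) < ∞`. -/
def IsBlaschkeSequence (z : ℕ → ℂ) : Prop :=
  Function.Injective z ∧ (∀ n, ‖z n‖ < 1) ∧ Summable (fun n => 1 - ‖z n‖)

/-- Blaschke products `e^{iθ} w^k ∏_j (|a_j|/a_j) (a_j - w)/(1 - conj(a_j) w)`, where `(a_j)` is a
finite or infinite family of nonzero points of the disc (repetitions allowed) with
`∑ (1 - |a_j|) < ∞`. -/
def IsBlaschkeProduct (B : ℂ → ℂ) : Prop :=
  ∃ (θ : ℝ) (k : ℕ) (ι : Type) (_ : Countable ι) (a : ι → ℂ),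
    (∀ j, a j ≠ 0 ∧ ‖a j‖ < 1) ∧ Summable (fun j => 1 - ‖a j‖) ∧
    ∀ w ∈ ball (0:ℂ) 1, ∃ P : ℂ,
      HasProd (fun j => ((‖a j‖ : ℂ) / a j) * ((a j - w) / (1 - conj (a j) * w))) P ∧
      B w = Complex.exp (θ * I) * w ^ k * P

/-- `g` is a minimal-norm interpolant of `f` on `z`. -/
def IsMinimalNormInterpolant (f : ℂ → ℂ) (z : ℕ → ℂ) (g : ℂ → ℂ) : Prop :=
  InHinf g ∧ (∀ n, g (z n) = f (z n)) ∧
  ∀ h : ℂ → ℂ, InHinf h → (∀ n, h (z n) = f (z n)) → supNorm g ≤ supNorm h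

/-- The minimal-norm interpolant `g` of `f` on `z` is unique (as a function on the disc). -/
def IsUniqueMinimalNormInterpolant (f : ℂ → ℂ) (z : ℕ → ℂ) (g : ℂ → ℂ) : Prop :=
  IsMinimalNormInterpolant f z g ∧
  ∀ h : ℂ → ℂ, IsMinimalNormInterpolant f z h → Set.EqOn h g (ball 0 1)

open Pool.Agent.Helper897.InnerUnique

instance : Nonempty (ball (0:ℂ) 1) := ⟨⟨0, by simp⟩⟩

lemma le_supNorm {g : ℂ → ℂ} (hg : InHinf g) {w : ℂ} (hw : w ∈ ball (0:ℂ) 1) :
    ‖g w‖ ≤ supNorm g := by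
  obtain ⟨-, M, hM⟩ := hg
  refine le_ciSup (f := fun w : ball (0:ℂ) 1 => ‖g w‖) ⟨M, ?_⟩ ⟨w, hw⟩
  rintro _ ⟨v, rfl⟩
  exact hM v v.2

lemma supNorm_S_le : supNorm S ≤ 1 := ciSup_le (fun w => S_norm_le_one w.2)

lemma S_inHinf : InHinf S := ⟨S_differentiableOn, 1, fun _ hw => S_norm_le_one hw⟩

lemma supNorm_congr {g h : ℂ → ℂ} (H : Set.EqOn g h (ball 0 1)) : supNorm g = supNorm h := by
  unfold supNorm
  congr 1
  funext w
  rw [H w.2]

/-- Uniqueness in the unit ball makes `S` the unique minimal-norm interpolant. -/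
lemma unique_minimal (z : ℕ → ℂ)
    (huniq : ∀ h : ℂ → ℂ, DifferentiableOn ℂ h (ball 0 1) → (∀ ζ ∈ ball (0:ℂ) 1, ‖h ζ‖ ≤ 1) →
      (∀ n, h (z n) = S (z n)) → Set.EqOn h S (ball 0 1)) :
    IsUniqueMinimalNormInterpolant S z S := by
  refine ⟨⟨S_inHinf, fun _ => rfl, ?_⟩, ?_⟩
  · intro h hh hint
    by_contra hcon
    push Not at hcon
    have h1 := huniq h hh.1 (fun ζ hζ => (le_supNorm hh hζ).trans (hcon.le.trans supNorm_S_le)) hint
    rw [supNorm_congr h1] at hcon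
    exact lt_irrefl _ hcon
  · intro h hh
    have h2 := hh.2.2 S S_inHinf (fun _ => rfl)
    exact huniq h hh.1.1 (fun ζ hζ => (le_supNorm hh.1 hζ).trans (h2.trans supNorm_S_le)) hh.2.1

lemma hasProd_zero_of {ι : Type} {f : ι → ℂ} {P : ℂ} (h : HasProd f P) {i : ι} (hi : f i = 0) :
    P = 0 := by
  classical
  have h1 : Tendsto (fun s : Finset ι => ∏ j ∈ s, f j) atTop (𝓝 0) := by
    apply tendsto_const_nhds.congr'
    filter_upwards [eventually_ge_atTop {i}] with s hs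
    symm
    exact Finset.prod_eq_zero (hs (Finset.mem_singleton_self i)) hi
  exact tendsto_nhds_unique h h1

/-- The singular inner function `S` is not a constant multiple of a Blaschke product. -/
lemma S_not_blaschke : ¬ ∃ (c : ℂ) (B : ℂ → ℂ), IsBlaschkeProduct B ∧
    ∀ w ∈ ball (0:ℂ) 1, S w = c * B w := by
  rintro ⟨c, B, ⟨θ, k, ι, _, a, ha, -, hB⟩, hSB⟩
  have hk : k = 0 := by
    by_contra hk
    obtain ⟨P, -, hP⟩ := hB 0 (by simp)
    have h1 := hSB 0 (by simp)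
    rw [hP, zero_pow hk] at h1
    simp only [mul_zero, zero_mul] at h1
    exact S_ne_zero 0 h1
  subst hk
  by_cases hι : Nonempty ι
  · obtain ⟨i⟩ := hι
    have hmem : a i ∈ ball (0:ℂ) 1 := by simpa using (ha i).2
    obtain ⟨P, hP1, hP2⟩ := hB (a i) hmem
    have hP0 : P = 0 := hasProd_zero_of hP1 (i := i) (by simp)
    have h1 := hSB (a i) hmem
    rw [hP2, hP0, mul_zero, mul_zero] at h1
    exact S_ne_zero _ h1
  · rw [not_nonempty_iff] at hι
    have hconst : ∀ w ∈ ball (0:ℂ) 1, S w = c * Complex.exp (θ * I) := by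
      intro w hw
      obtain ⟨P, hP1, hP2⟩ := hB w hw
      have hP : P = 1 := hP1.unique hasProd_empty
      rw [hSB w hw, hP2, hP]
      simp
    apply S_nonconst
    rw [hconst 0 (by simp), hconst (-1/2) (by simp; norm_num)]

/-- Block length parameter. -/
def Ak (k : ℕ) : ℕ := 4 ^ (k + 1)

/-- The number of points of block `k`. -/
def Nk (k : ℕ) : ℕ := 20 * (2 * Ak k)

/-- The points in the half-plane: `4^{k+1} + j/N_k + i (k+1)`, `0 ≤ j < N_k`. -/
def wpt (p : Σ k : ℕ, Fin (Nk k)) : ℂ :=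
  ⟨(Ak p.1 : ℝ) + (p.2 : ℕ) / (Nk p.1 : ℝ), (p.1 : ℝ) + 1⟩

lemma Ak_pos (k : ℕ) : 0 < Ak k := by unfold Ak; positivity

lemma Nk_pos (k : ℕ) : 0 < Nk k := by
  unfold Nk
  have := Ak_pos k
  omega

lemma le_Ak (k : ℕ) : k + 2 ≤ Ak k := by
  unfold Ak
  induction k with
  | zero => norm_num
  | succ n ih =>
    rw [pow_succ]
    omega

lemma wpt_im (p : Σ k : ℕ, Fin (Nk k)) : (wpt p).im = (p.1 : ℝ) + 1 := rfl

lemma wpt_im_pos (p : Σ k : ℕ, Fin (Nk k)) : 0 < (wpt p).im := by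
  rw [wpt_im]
  positivity

lemma wpt_re (p : Σ k : ℕ, Fin (Nk k)) :
    (wpt p).re = (Ak p.1 : ℝ) + (p.2 : ℕ) / (Nk p.1 : ℝ) := rfl

lemma wpt_frac (p : Σ k : ℕ, Fin (Nk k)) :
    0 ≤ ((p.2 : ℕ) : ℝ) / (Nk p.1 : ℝ) ∧ ((p.2 : ℕ) : ℝ) / (Nk p.1 : ℝ) < 1 := by
  have h := Nk_pos p.1
  have h' : (0:ℝ) < Nk p.1 := by exact_mod_cast h
  constructor
  · positivity
  · rw [div_lt_one h']
    exact_mod_cast p.2.2

lemma wpt_injective : Function.Injective wpt := by
  rintro ⟨k, j⟩ ⟨k', j'⟩ h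
  have h1 : (wpt ⟨k, j⟩).im = (wpt ⟨k', j'⟩).im := by rw [h]
  rw [wpt_im, wpt_im] at h1
  have h2 : k = k' := by
    have : (k:ℝ) = k' := by linarith
    exact_mod_cast this
  subst h2
  have h3 : (wpt ⟨k, j⟩).re = (wpt ⟨k, j'⟩).re := by rw [h]
  rw [wpt_re, wpt_re] at h3
  have h' : (Nk k : ℝ) ≠ 0 := by
    have := Nk_pos k
    positivity
  have h4 : ((j : ℕ) : ℝ) = ((j' : ℕ) : ℝ) := by
    have h5 : ((j : ℕ) : ℝ) / (Nk k : ℝ) = ((j' : ℕ) : ℝ) / (Nk k : ℝ) := by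
      simpa using h3
    field_simp at h5
    exact h5
  have h6 : j = j' := by
    apply Fin.ext
    exact_mod_cast h4
  rw [h6]

lemma wpt_norm (p : Σ k : ℕ, Fin (Nk k)) : ‖wpt p‖ ≤ ((2 * Ak p.1 : ℕ) : ℝ) := by
  have h1 := wpt_frac p
  have h2 : ((p.1 + 2 : ℕ) : ℝ) ≤ Ak p.1 := by exact_mod_cast le_Ak p.1
  push_cast at h2
  refine (Complex.norm_le_abs_re_add_abs_im _).trans ?_
  rw [wpt_re, wpt_im, abs_of_nonneg (by positivity), abs_of_nonneg (by positivity)]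
  push_cast
  linarith

/-- The points in the disc, indexed by blocks. -/
def zpt (p : Σ k : ℕ, Fin (Nk k)) : ℂ := Z (wpt p)

lemma zpt_mem (p : Σ k : ℕ, Fin (Nk k)) : zpt p ∈ ball (0:ℂ) 1 := Z_mem (wpt_im_pos p)

lemma W_zpt (p : Σ k : ℕ, Fin (Nk k)) : W (zpt p) = wpt p := W_Z (wpt_im_pos p)

lemma zpt_injective : Function.Injective zpt := by
  intro p q h
  apply wpt_injective
  rw [← W_zpt, ← W_zpt, h]

lemma zpt_mass (p : Σ k : ℕ, Fin (Nk k)) :
    1 - ‖zpt p‖ ≤ 4 * ((p.1 : ℝ) + 1) / (Ak p.1 : ℝ) ^ 2 := by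
  have h1 : 1 - ‖zpt p‖ ≤ 1 - ‖zpt p‖ ^ 2 := by
    have h2 : ‖zpt p‖ < 1 := by simpa using zpt_mem p
    nlinarith [norm_nonneg (zpt p)]
  refine h1.trans ?_
  unfold zpt
  rw [one_sub_norm_sq_Z (wpt_im_pos p), wpt_im]
  have hA : (0:ℝ) < Ak p.1 := by exact_mod_cast Ak_pos p.1
  have h3 := wpt_frac p
  apply div_le_div_of_nonneg_left (by positivity) (by positivity)
  rw [Complex.normSq_apply, Complex.add_re, Complex.I_re, add_zero, wpt_re]
  nlinarith [mul_self_nonneg ((wpt p + I).im)]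

lemma zpt_summable : Summable (fun p => 1 - ‖zpt p‖) := by
  have hnn : ∀ p, 0 ≤ 1 - ‖zpt p‖ := by
    intro p
    have h2 : ‖zpt p‖ < 1 := by simpa using zpt_mem p
    linarith
  rw [summable_sigma_of_nonneg hnn]
  refine ⟨fun k => (hasSum_fintype _).summable, ?_⟩
  have hle : ∀ k, ∑' j : Fin (Nk k), (1 - ‖zpt ⟨k, j⟩‖) ≤ 160 * (((k:ℝ) + 1) * (1/4:ℝ) ^ (k + 1)) := by
    intro k
    rw [tsum_fintype]
    have h1 : ∀ j ∈ Finset.univ, (1 - ‖zpt ⟨k, j⟩‖) ≤ 4 * ((k : ℝ) + 1) / (Ak k : ℝ) ^ 2 :=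
      fun j _ => zpt_mass ⟨k, j⟩
    refine (Finset.sum_le_sum h1).trans (le_of_eq ?_)
    rw [Finset.sum_const, Finset.card_univ, Fintype.card_fin, nsmul_eq_mul]
    have hA : (Ak k : ℝ) = 4 ^ (k + 1) := by
      unfold Ak
      push_cast
      rfl
    unfold Nk
    push_cast
    rw [hA, one_div, inv_pow]
    field_simp
    ring
  refine Summable.of_nonneg_of_le (fun k => tsum_nonneg (fun j => hnn _)) hle ?_
  apply Summable.mul_left
  have h1 := summable_pow_mul_geometric_of_norm_lt_one (R := ℝ) 1 (r := 1/4) (by norm_num)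
  have h2 := (summable_nat_add_iff 1).2 h1
  refine h2.congr (fun k => ?_)
  push_cast
  ring

instance : Infinite (Σ k : ℕ, Fin (Nk k)) :=
  Infinite.of_injective (fun k => (⟨k, ⟨0, Nk_pos k⟩⟩ : Σ k : ℕ, Fin (Nk k)))
    (fun _ _ h => congrArg Sigma.fst h)

/-- **Disproof of Q2** (hence also of Q1). There are `f ∈ H^∞` and a Blaschke sequence with
`f(z_n) → 0` for which the minimal-norm interpolant is unique but is not a constant multiple of any
Blaschke product. -/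
theorem result :
    ¬ ∀ (f : ℂ → ℂ) (z : ℕ → ℂ), InHinf f → IsBlaschkeSequence z →
      Tendsto (fun n => f (z n)) atTop (𝓝 0) →
      ∀ g : ℂ → ℂ, IsUniqueMinimalNormInterpolant f z g →
        ∃ (c : ℂ) (B : ℂ → ℂ), IsBlaschkeProduct B ∧ ∀ w ∈ ball (0:ℂ) 1, g w = c * B w := by
  intro H
  apply S_not_blaschke
  obtain ⟨hden⟩ := nonempty_denumerable (Σ k : ℕ, Fin (Nk k))
  set e := (Denumerable.eqv (Σ k : ℕ, Fin (Nk k))).symm with he
  set z : ℕ → ℂ := fun n => zpt (e n) with hz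
  have hmem : ∀ n, z n ∈ ball (0:ℂ) 1 := fun n => zpt_mem _
  have hbl : IsBlaschkeSequence z := by
    refine ⟨zpt_injective.comp e.injective, fun n => by simpa using hmem n, ?_⟩
    exact (e.summable_iff (f := fun p => 1 - ‖zpt p‖)).2 zpt_summable
  have hlim : Tendsto (fun n => S (z n)) atTop (𝓝 0) := by
    have h1 : Tendsto (fun p => S (zpt p)) cofinite (𝓝 0) := by
      rw [tendsto_zero_iff_norm_tendsto_zero]
      have h2 : (fun p => ‖S (zpt p)‖) = fun p => Real.exp (-((p.1 : ℝ) + 1)) := by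
        funext p
        rw [norm_S, W_zpt, wpt_im]
      rw [h2]
      have h3 : Tendsto (fun p : Σ k : ℕ, Fin (Nk k) => p.1) cofinite atTop := by
        rw [Filter.tendsto_atTop]
        intro K
        rw [eventually_cofinite]
        have h4 : {p : Σ k : ℕ, Fin (Nk k) | ¬ K ≤ p.1}
            ⊆ ((Finset.range K).sigma (fun k => (Finset.univ : Finset (Fin (Nk k)))) :
              Set (Σ k : ℕ, Fin (Nk k))) := by
          rintro ⟨k, j⟩ hk
          simp only [Finset.coe_sigma, Set.mem_sigma_iff, Finset.mem_coe, Finset.mem_range,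
            Finset.mem_univ, and_true]
          exact not_le.1 hk
        exact (Finset.finite_toSet _).subset h4
      have h5 : Tendsto (fun k : ℕ => Real.exp (-((k : ℝ) + 1))) atTop (𝓝 0) := by
        apply Real.tendsto_exp_atBot.comp
        apply tendsto_neg_atTop_atBot.comp
        exact tendsto_atTop_add_const_right _ _ tendsto_natCast_atTop_atTop
      exact h5.comp h3
    rw [← Nat.cofinite_eq_atTop]
    exact h1.comp e.injective.tendsto_cofinite
  refine H S z S_inHinf hbl hlim S (unique_minimal z ?_)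
  intro h hh hb hS
  apply unique_of_density z hmem ?_ hh hb hS
  intro m
  refine ⟨2 * Ak m, by have := le_Ak m; omega, ?_⟩
  refine ⟨(Finset.univ : Finset (Fin (Nk m))).map
    ⟨fun j => e.symm ⟨m, j⟩, fun j j' hjj => by
      have := e.symm.injective hjj
      simpa using this⟩, ?_, ?_, ?_⟩
  · rw [Finset.card_map, Finset.card_univ, Fintype.card_fin]
    rfl
  · intro n _ n' _ hnn
    simp only [hz, W_zpt] at hnn
    exact e.injective (wpt_injective hnn)
  · intro n hn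
    rw [Finset.mem_map] at hn
    obtain ⟨j, _, rfl⟩ := hn
    have h1 : z (e.symm ⟨m, j⟩) = zpt ⟨m, j⟩ := by
      rw [hz]
      simp
    show ‖W (z (e.symm ⟨m, j⟩))‖ ≤ _
    rw [h1, W_zpt]
    exact wpt_norm ⟨m, j⟩

end

end Pool.Agent.Results.MP_c109b8_an.UniqueNotBlaschkeDecay
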